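import Pool.Agent.Q238.PlaneInc

/-! # Semi-translation planes whose ternary fields are not linear over the Baer subplane

The counterexample is due to helper39 (paper proof), formalised here. -/

namespace Pool.Agent.Results.MP_da03c4_co.NotLinear

open Configuration

/-- A collineation of an incidence structure. -/
structure Collineation (P L : Type) [Membership P L] where
  pts : P ≃ P
  lns : L ≃ L
  mem_iff : ∀ p l, pts p ∈ lns l ↔ p ∈ l

/-- Elations with axis `W` (the identity included): all points of `W` are fixed, and all lines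
through some point `c` of `W` are fixed. -/
def Collineation.IsElation {P L : Type} [Membership P L] (σ : Collineation P L) (W : L) : Prop :=
  (∀ p : P, p ∈ W → σ.pts p = p) ∧ ∃ c : P, c ∈ W ∧ ∀ l : L, c ∈ l → σ.lns l = l

/-- A quadrangle: four points, no three on a line. -/
def IsQuadrangle {P : Type} (L : Type) [Membership P L] (a b c d : P) : Prop :=
  ∀ l : L, ¬ (a ∈ l ∧ b ∈ l ∧ c ∈ l) ∧ ¬ (a ∈ l ∧ b ∈ l ∧ d ∈ l) ∧ ¬ (a ∈ l ∧ c ∈ l ∧ d ∈ l) ∧
    ¬ (b ∈ l ∧ c ∈ l ∧ d ∈ l)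

/-- A subplane: a set of points and a set of lines, closed under joining and intersecting, which
contains a quadrangle. -/
structure Subplane (P L : Type) [Membership P L] where
  pts : Set P
  lns : Set L
  line_mem : ∀ p ∈ pts, ∀ q ∈ pts, p ≠ q → ∀ l : L, p ∈ l → q ∈ l → l ∈ lns
  point_mem : ∀ l ∈ lns, ∀ m ∈ lns, l ≠ m → ∀ p : P, p ∈ l → p ∈ m → p ∈ pts
  quad : ∃ a ∈ pts, ∃ b ∈ pts, ∃ c ∈ pts, ∃ d ∈ pts, IsQuadrangle L a b c d

/-- Points of a subplane. -/
def Subplane.Point {P L : Type} [Membership P L] (Q : Subplane P L) : Type := {p : P // p ∈ Q.pts}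

/-- Lines of a subplane. -/
def Subplane.Line {P L : Type} [Membership P L] (Q : Subplane P L) : Type := {l : L // l ∈ Q.lns}

/-- The incidence of a subplane is induced. -/
instance {P L : Type} [Membership P L] (Q : Subplane P L) : Membership Q.Point Q.Line :=
  ⟨fun l p => p.1 ∈ l.1⟩

/-- Baer subplanes. -/
def Subplane.IsBaer {P L : Type} [Membership P L] (Q : Subplane P L) : Prop :=
  (∀ p : P, ∃ l ∈ Q.lns, p ∈ l) ∧ (∀ l : L, ∃ p ∈ Q.pts, p ∈ l)

/-- The affine plane obtained by deleting `W` is a semi-translation plane with respect to the Baer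
subplane given by `Q`: `Q` is Baer and contains `W`, the translations of the affine plane of `Q`
are transitive on its points, and each of them is induced by a translation of the whole plane. -/
def IsSemiTranslation {P L : Type} [Membership P L] (W : L) (Q : Subplane P L) : Prop :=
  ∃ hW : W ∈ Q.lns, Q.IsBaer ∧
    (∀ p q : Q.Point, p.1 ∉ W → q.1 ∉ W →
      ∃ σ : Collineation Q.Point Q.Line, σ.IsElation (⟨W, hW⟩ : Q.Line) ∧ σ.pts p = q) ∧
    (∀ σ : Collineation Q.Point Q.Line, σ.IsElation (⟨W, hW⟩ : Q.Line) →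
      ∃ τ : Collineation P L, τ.IsElation W ∧ ∀ p : Q.Point, τ.pts p.1 = (σ.pts p).1)

/-- Hall coordinates with respect to `o, e, u, v` (`u, v` on `W`): the affine points are the
`pt x y`; `o = (0,0)`, `e = (1,1)`, the points `(x,x)` are on the line `oe`, the lines `x = const`
pass through `v` and the lines `y = const` pass through `u`. -/
structure HallCoords {P L : Type} [Membership P L] (W : L) (o e u v : P) (T : Type) where
  zero : T
  one : T
  pt : T → T → P
  affine : ∀ x y, pt x y ∉ W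
  bij : ∀ p : P, p ∉ W → ∃! q : T × T, pt q.1 q.2 = p
  zero_zero : pt zero zero = o
  one_one : pt one one = e
  diag : ∀ x, ∃ l : L, o ∈ l ∧ e ∈ l ∧ pt x x ∈ l
  vert : ∀ x y y', ∃ l : L, v ∈ l ∧ pt x y ∈ l ∧ pt x y' ∈ l
  horiz : ∀ x x' y, ∃ l : L, u ∈ l ∧ pt x y ∈ l ∧ pt x' y ∈ l

/-- `(x, y)` is on the line through `(0, b)` which is parallel to the line through `o` and
`(1, a)`; that is, `y = x · a ∘ b`. -/
def HallCoords.Tern {P L : Type} [Membership P L] {W : L} {o e u v : P} {T : Type}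
    (C : HallCoords W o e u v T) (x a b y : T) : Prop :=
  ∃ (m l : L) (w : P), o ∈ m ∧ C.pt C.one a ∈ m ∧ w ∈ m ∧ w ∈ W ∧ w ∈ l ∧ C.pt C.zero b ∈ l ∧
    C.pt x y ∈ l

section general

variable {P L : Type} [Membership P L] [ProjectivePlane P L]

theorem line_eq {p q : P} {l m : L} (h : p ≠ q) (h1 : p ∈ l) (h2 : q ∈ l) (h3 : p ∈ m)
    (h4 : q ∈ m) : l = m :=
  (Nondegenerate.eq_or_eq h1 h2 h3 h4).resolve_left h

theorem point_eq {p q : P} {l m : L} (h : l ≠ m) (h1 : p ∈ l) (h2 : q ∈ l) (h3 : p ∈ m)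
    (h4 : q ∈ m) : p = q :=
  (Nondegenerate.eq_or_eq h1 h2 h3 h4).resolve_right h

theorem ex_line (p q : P) (h : p ≠ q) : ∃ l : L, p ∈ l ∧ q ∈ l :=
  ⟨HasLines.mkLine h, HasLines.mkLine_ax h⟩

theorem ex_point (l m : L) (h : l ≠ m) : ∃ p : P, p ∈ l ∧ p ∈ m :=
  ⟨HasPoints.mkPoint h, HasPoints.mkPoint_ax h⟩

variable {W : L} {o e u v : P} {T : Type}

omit [ProjectivePlane P L] in
theorem HallCoords.inj (C : HallCoords W o e u v T) {x y x' y' : T} (h : C.pt x y = C.pt x' y') :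
    x = x' ∧ y = y' := by
  obtain ⟨q, -, hq⟩ := C.bij _ (C.affine x y)
  have h1 := hq (x, y) rfl
  have h2 := hq (x', y') h.symm
  have h3 := h1.trans h2.symm
  rw [Prod.mk.injEq] at h3
  exact h3

/-- In Hall coordinates the relation `Tern` is the graph of a ternary operation. -/
theorem exists_tern (hQ : IsQuadrangle L o e u v) (hu : u ∈ W) (hv : v ∈ W)
    (C : HallCoords W o e u v T) :
    ∃ tern : T → T → T → T, ∀ x a b y, C.Tern x a b y ↔ y = tern x a b := by
  have huv : u ≠ v := by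
    rintro rfl
    obtain ⟨l, h1, h2⟩ : ∃ l : L, o ∈ l ∧ u ∈ l := by
      by_cases h : o = u
      · subst h
        exact ⟨W, hu, hu⟩
      · exact ex_line o u h
    exact (hQ l).2.2.1 ⟨h1, h2, h2⟩
  have h01 : C.zero ≠ C.one := by
    intro h
    have : o = e := C.zero_zero.symm.trans ((congrArg₂ C.pt h h).trans C.one_one)
    subst this
    obtain ⟨l, h1, h2⟩ : ∃ l : L, o ∈ l ∧ u ∈ l := by
      by_cases h : o = u
      · subst h
        exact ⟨W, hu, hu⟩
      · exact ex_line o u h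
    exact (hQ l).1 ⟨h1, h1, h2⟩
  -- a line containing two points with the same first coordinate passes through `v`
  have hvert : ∀ (x y y' : T) (l : L), y ≠ y' → C.pt x y ∈ l → C.pt x y' ∈ l → v ∈ l := by
    intro x y y' l hy h1 h2
    obtain ⟨l', h3, h4, h5⟩ := C.vert x y y'
    rw [line_eq (fun h => hy (C.inj h).2) h1 h2 h4 h5]
    exact h3
  have hhor : ∀ (x x' y : T) (l : L), x ≠ x' → C.pt x y ∈ l → C.pt x' y ∈ l → u ∈ l := by
    intro x x' y l hy h1 h2
    obtain ⟨l', h3, h4, h5⟩ := C.horiz x x' y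
    rw [line_eq (fun h => hy (C.inj h).1) h1 h2 h4 h5]
    exact h3
  have hW : ∀ (x y : T) (l : L), C.pt x y ∈ l → ¬ (u ∈ l ∧ v ∈ l) := by
    rintro x y l h1 ⟨h2, h3⟩
    have e : l = W := line_eq huv h2 h3 hu hv
    subst e
    exact C.affine x y h1
  -- a line through `v` contains points with only one first coordinate
  have hcol : ∀ (x y x' y' : T) (l : L), v ∈ l → C.pt x y ∈ l → C.pt x' y' ∈ l → x = x' := by
    intro x y x' y' l h1 h2 h3
    by_contra hne
    have h4 : C.pt x' y ∈ l := by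
      obtain ⟨l', h5, h6, h7⟩ := C.vert x' y' y
      have hvp : v ≠ C.pt x' y' := fun h => C.affine x' y' (by rw [← h]; exact hv)
      rw [line_eq hvp h1 h3 h5 h6]
      exact h7
    exact hW x y l h2 ⟨hhor _ _ _ _ hne h2 h4, h1⟩
  have hex : ∀ x a b, ∃ y, C.Tern x a b y := by
    intro x a b
    have hne : o ≠ C.pt C.one a := fun h => h01 (C.inj (C.zero_zero.trans h)).1
    obtain ⟨m, hm1, hm2⟩ := ex_line (L := L) _ _ hne
    have hmW : m ≠ W := by
      rintro rfl
      exact C.affine _ _ hm2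
    obtain ⟨w, hw1, hw2⟩ := ex_point m W hmW
    have hwb : w ≠ C.pt C.zero b := fun h => C.affine C.zero b (by rw [← h]; exact hw2)
    obtain ⟨l, hl1, hl2⟩ := ex_line (L := L) _ _ hwb
    have hvw : v ∉ l := by
      intro hvl
      have hlW : l ≠ W := by
        rintro rfl
        exact C.affine _ _ hl2
      have : v = w := point_eq hlW hvl hl1 hv hw2
      subst this
      have := hcol C.zero C.zero C.one a m hw1 (by rw [C.zero_zero]; exact hm1) hm2
      exact h01 this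
    obtain ⟨n, hn1, hn2, -⟩ := C.vert x C.zero C.zero
    have hnl : n ≠ l := by
      rintro rfl
      exact hvw hn1
    obtain ⟨r, hr1, hr2⟩ := ex_point n l hnl
    have hrW : r ∉ W := by
      intro h
      have hnW : n ≠ W := by
        rintro rfl
        exact C.affine _ _ hn2
      have : r = v := point_eq hnW hr1 hn1 h hv
      subst this
      exact hvw hr2
    obtain ⟨⟨x', y⟩, hq, -⟩ := C.bij r hrW
    simp only at hq
    have hx : x' = x := hcol x' y x C.zero n hn1 (by rw [hq]; exact hr1) hn2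
    subst hx
    exact ⟨y, m, l, w, hm1, hm2, hw1, hw2, hl1, hl2, by rw [hq]; exact hr2⟩
  choose tern htern using hex
  refine ⟨tern, fun x a b y => ⟨?_, fun h => h ▸ htern x a b⟩⟩
  rintro ⟨m, l, w, h1, h2, h3, h4, h5, h6, h7⟩
  obtain ⟨m', l', w', g1, g2, g3, g4, g5, g6, g7⟩ := htern x a b
  have hne : o ≠ C.pt C.one a := fun h => h01 (C.inj (C.zero_zero.trans h)).1
  have e1 : m = m' := line_eq hne h1 h2 g1 g2
  subst e1
  have hmW : m ≠ W := by
    rintro rfl
    exact C.affine _ _ h2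
  have e2 : w = w' := point_eq hmW h3 g3 h4 g4
  subst e2
  have hwb : w ≠ C.pt C.zero b := fun h => C.affine C.zero b (by rw [← h]; exact h4)
  have e3 : l = l' := line_eq hwb h5 h6 g5 g6
  subst e3
  by_contra hy
  have hvl : v ∈ l := hvert x y (tern x a b) l hy h7 g7
  have hlW : l ≠ W := by
    rintro rfl
    exact C.affine _ _ h6
  have : v = w := point_eq hlW hvl h5 hv h4
  subst this
  exact h01 (hcol C.zero C.zero C.one a m h3 (by rw [C.zero_zero]; exact h1) h2)

end general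

/-! ### The example -/

open Pool.Agent.Q238.PlaneFun Pool.Agent.Q238.PlaneInc

section example1

variable (f : ℕ → ℚ × ℚ → ℚ × ℚ)

/-- incidence -/
abbrev mem : Membership Pt Ln := ⟨fun l p => inc f p l⟩

noncomputable abbrev plane (hf : Good f) : @ProjectivePlane Pt Ln (mem f) :=
  letI := mem f
  { mkPoint := fun {l m} h => Classical.choose (exists_point hf l m h)
    mkPoint_ax := fun {l m} h => Classical.choose_spec (exists_point hf l m h)
    mkLine := fun {p q} h => Classical.choose (exists_line hf p q h)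
    mkLine_ax := fun {p q} h => Classical.choose_spec (exists_line hf p q h)
    exists_point := by
      rintro (⟨a, b⟩ | ⟨s, c, k⟩ | ⟨z, h⟩ | _)
      · exact ⟨.infM 0, id⟩
      · exact ⟨.infV, id⟩
      · exact ⟨.infV, id⟩
      · exact ⟨.aff 0 0, id⟩
    exists_line := by
      rintro (⟨a, b⟩ | s | _ | z)
      · exact ⟨.W, id⟩
      · exact ⟨.mln 0 0, id⟩
      · exact ⟨.mln 0 0, id⟩
      · exact ⟨.vert 0 0, id⟩
    eq_or_eq := fun {p q l m} h1 h2 h3 h4 => uniq hf p q l m h1 h2 h3 h4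
    exists_config := by
      refine ⟨.aff 0 0, .infV, .inf 0, .slope 1 0 0, .W, .vert 1 0, ?_, ?_, ?_, ?_, ?_, ?_, ?_, ?_⟩
      · exact id
      · rintro ⟨h, -⟩
        norm_num at h
      · exact id
      · exact trivial
      · exact trivial
      · intro h
        have : (0 : ℚ) = 1 := h
        norm_num at this
      · exact trivial
      · exact id }

/-- The points of the Baer subplane. -/
def QP : Set Pt := {p | (∃ g, p = .aff 0 g) ∨ (∃ s, p = .inf s) ∨ p = .infV}

/-- The lines of the Baer subplane. -/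
def QL : Set Ln := {l | (∃ b, l = .vert 0 b) ∨ (∃ s k, l = .slope s 0 k) ∨ l = .W}

theorem quad : letI := mem f; IsQuadrangle Ln (Pt.aff 0 0) (Pt.aff 0 (1, 1)) (Pt.inf 0) Pt.infV := by
  letI := mem f
  rintro (⟨a, b⟩ | ⟨s, c, k⟩ | ⟨z, h⟩ | _)
  · refine ⟨?_, ?_, ?_, ?_⟩
    · rintro ⟨-, -, h⟩; exact h
    · rintro ⟨⟨-, h1⟩, ⟨-, h2⟩, -⟩
      have h1 : (0 : ℚ) = b := h1
      have h2 : (1 : ℚ) = b := h2
      linarith
    · rintro ⟨-, h, -⟩; exact h
    · rintro ⟨-, h, -⟩; exact h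
  · refine ⟨?_, ?_, ?_, ?_⟩
    · rintro ⟨⟨-, h1⟩, ⟨-, h2⟩, h3⟩
      have h3 : (0 : ℚ) = s := h3
      subst h3
      have h1 : (0 : ℚ) = 0 * 0 + k + (0 ^ 2 - 0) * c * 0 := h1
      have h2 : (1 : ℚ) = 0 * 1 + k + (0 ^ 2 - 0) * c * 0 := h2
      linarith
    · rintro ⟨-, -, h⟩; exact h
    · rintro ⟨-, -, h⟩; exact h
    · rintro ⟨-, -, h⟩; exact h
  · refine ⟨?_, ?_, ?_, ?_⟩
    · rintro ⟨-, -, h⟩; exact h
    · rintro ⟨-, -, h⟩; exact h
    · rintro ⟨-, -, h⟩; exact h
    · rintro ⟨-, -, h⟩; exact h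
  · refine ⟨?_, ?_, ?_, ?_⟩
    · rintro ⟨h, -, -⟩; exact h
    · rintro ⟨h, -, -⟩; exact h
    · rintro ⟨h, -, -⟩; exact h
    · rintro ⟨h, -, -⟩; exact h

/-- The Baer subplane. -/
def subpl (hf : Good f) : letI := mem f; Subplane Pt Ln :=
  letI := mem f
  { pts := QP
    lns := QL
    line_mem := by
      rintro p hp q hq hne l h1 h2
      rcases l with ⟨a, b⟩ | ⟨s, c, k⟩ | ⟨z, h⟩ | _
      · left
        rcases hp with ⟨g, rfl⟩ | ⟨s, rfl⟩ | rfl
        · have : (0 : ℚ) = a := h1.1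
          subst this
          exact ⟨b, rfl⟩
        · exact absurd h1 id
        · rcases hq with ⟨g, rfl⟩ | ⟨s, rfl⟩ | rfl
          · have : (0 : ℚ) = a := h2.1
            subst this
            exact ⟨b, rfl⟩
          · exact absurd h2 id
          · exact absurd rfl hne
      · right; left
        have key : ∀ g, inc f (.aff 0 g) (.slope s c k) → c = 0 := by
          rintro g ⟨h, -⟩
          have : (0 : ℚ) = s * 0 + c := h
          linarith
        rcases hp with ⟨g, rfl⟩ | ⟨s', rfl⟩ | rfl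
        · rw [key g h1]; exact ⟨s, k, rfl⟩
        · rcases hq with ⟨g, rfl⟩ | ⟨s'', rfl⟩ | rfl
          · rw [key g h2]; exact ⟨s, k, rfl⟩
          · exfalso
            have e1 : s' = s := h1
            have e2 : s'' = s := h2
            exact hne (by rw [e1, e2])
          · exact absurd h2 id
        · exact absurd h1 id
      · exfalso
        rcases hp with ⟨g, rfl⟩ | ⟨s', rfl⟩ | rfl
        · rcases hq with ⟨g', rfl⟩ | ⟨s'', rfl⟩ | rfl
          · have e1 : g = f z 0 + h := h1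
            have e2 : g' = f z 0 + h := h2
            exact hne (by rw [e1, e2])
          · exact h2
          · exact h2
        · exact h1
        · exact h1
      · right; right; rfl
    point_mem := by
      rintro l hl m hm hne p h1 h2
      rcases hl with ⟨b, rfl⟩ | ⟨s, k, rfl⟩ | rfl
      · rcases p with ⟨O, g⟩ | s | _ | z
        · left
          have e1 : O.1 = 0 := h1.1
          rcases hm with ⟨b', rfl⟩ | ⟨s', k', rfl⟩ | rfl
          · exfalso
            have e2 : g.1 = b := h1.2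
            have e3 : g.1 = b' := h2.2
            exact hne (by rw [← e2, ← e3])
          · have e2 : O.2 = s' * O.1 + 0 := h2.1
            have : O = 0 := Prod.ext e1 (by rw [e2, e1]; simp)
            exact ⟨g, by rw [this]⟩
          · exact absurd h2 id
        · exact Or.inr (Or.inl ⟨s, rfl⟩)
        · exact Or.inr (Or.inr rfl)
        · exact absurd h1 id
      · rcases p with ⟨O, g⟩ | s | _ | z
        · left
          have e1 : O.2 = s * O.1 + 0 := h1.1
          rcases hm with ⟨b', rfl⟩ | ⟨s', k', rfl⟩ | rfl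
          · have e2 : O.1 = 0 := h2.1
            have : O = 0 := Prod.ext e2 (by rw [e1, e2]; simp)
            exact ⟨g, by rw [this]⟩
          · have e2 : O.2 = s' * O.1 + 0 := h2.1
            have e3 : g.2 = s * g.1 + k + (s ^ 2 - s) * 0 * O.1 := h1.2
            have e4 : g.2 = s' * g.1 + k' + (s' ^ 2 - s') * 0 * O.1 := h2.2
            have hs : s ≠ s' := by
              rintro rfl
              apply hne
              have : k = k' := by linarith
              rw [this]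
            have e5 : (s - s') * O.1 = 0 := by linear_combination e2 - e1
            have e6 : O.1 = 0 := by
              rcases mul_eq_zero.1 e5 with h | h
              · exact absurd (by linarith) hs
              · exact h
            have : O = 0 := Prod.ext e6 (by rw [e1, e6]; simp)
            exact ⟨g, by rw [this]⟩
          · exact absurd h2 id
        · exact Or.inr (Or.inl ⟨_, rfl⟩)
        · exact Or.inr (Or.inr rfl)
        · exact absurd h1 id
      · rcases p with ⟨O, g⟩ | s | _ | z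
        · exact absurd h1 id
        · exact Or.inr (Or.inl ⟨_, rfl⟩)
        · exact Or.inr (Or.inr rfl)
        · rcases hm with ⟨b', rfl⟩ | ⟨s', k', rfl⟩ | rfl
          · exact absurd h2 id
          · exact absurd h2 id
          · exact absurd rfl hne
    quad := ⟨.aff 0 0, Or.inl ⟨_, rfl⟩, .aff 0 (1, 1), Or.inl ⟨_, rfl⟩, .inf 0,
      Or.inr (Or.inl ⟨_, rfl⟩), .infV, Or.inr (Or.inr rfl), quad f⟩ }

/-- Translation of the points by `v`. -/
def sPt (v : ℚ × ℚ) : Pt → Pt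
  | .aff O g => .aff O (g + v)
  | .inf s => .inf s
  | .infV => .infV
  | .infM z => .infM z

/-- Translation of the lines by `v`. -/
def sLn (v : ℚ × ℚ) : Ln → Ln
  | .vert a b => .vert a (b + v.1)
  | .slope s c k => .slope s c (k + v.2 - s * v.1)
  | .mln z h => .mln z (h + v)
  | .W => .W

theorem sPt_neg (v : ℚ × ℚ) (p : Pt) : sPt (-v) (sPt v p) = p := by
  rcases p with ⟨O, g⟩ | s | _ | z
  · show Pt.aff O (g + v + -v) = Pt.aff O g
    rw [add_neg_cancel_right]
  all_goals rfl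

theorem sPt_neg' (v : ℚ × ℚ) (p : Pt) : sPt v (sPt (-v) p) = p := by
  have := sPt_neg (-v) p
  rwa [neg_neg] at this

theorem sLn_neg (v : ℚ × ℚ) (l : Ln) : sLn (-v) (sLn v l) = l := by
  rcases l with ⟨a, b⟩ | ⟨s, c, k⟩ | ⟨z, h⟩ | _
  · show Ln.vert a (b + v.1 + -v.1) = Ln.vert a b
    rw [add_neg_cancel_right]
  · show Ln.slope s c (k + v.2 - s * v.1 + -v.2 - s * -v.1) = Ln.slope s c k
    congr 1; ring
  · show Ln.mln z (h + v + -v) = Ln.mln z h
    rw [add_neg_cancel_right]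
  · rfl

theorem sLn_neg' (v : ℚ × ℚ) (l : Ln) : sLn v (sLn (-v) l) = l := by
  have := sLn_neg (-v) l
  rwa [neg_neg] at this

theorem inc_s (v : ℚ × ℚ) (p : Pt) (l : Ln) : inc f (sPt v p) (sLn v l) ↔ inc f p l := by
  rcases p with ⟨O, g⟩ | s | _ | z
  · rcases l with ⟨a, b⟩ | ⟨s, c, k⟩ | ⟨z, h⟩ | _
    · show (O.1 = a ∧ g.1 + v.1 = b + v.1) ↔ (O.1 = a ∧ g.1 = b)
      rw [add_left_inj]
    · show (O.2 = s * O.1 + c ∧ g.2 + v.2 = s * (g.1 + v.1) + (k + v.2 - s * v.1) +
        (s ^ 2 - s) * c * O.1) ↔ (O.2 = s * O.1 + c ∧ g.2 = s * g.1 + k + (s ^ 2 - s) * c * O.1)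
      constructor
      · rintro ⟨h1, h2⟩; exact ⟨h1, by linear_combination h2⟩
      · rintro ⟨h1, h2⟩; exact ⟨h1, by linear_combination h2⟩
    · show g + v = f z O + (h + v) ↔ g = f z O + h
      rw [← add_assoc, add_left_inj]
    · exact Iff.rfl
  all_goals
    rcases l with ⟨a, b⟩ | ⟨s', c, k⟩ | ⟨z', h⟩ | _ <;> exact Iff.rfl

/-- The translations of the plane. -/
def transl (v : ℚ × ℚ) : letI := mem f; Collineation Pt Ln :=
  letI := mem f
  { pts := ⟨sPt v, sPt (-v), sPt_neg v, sPt_neg' v⟩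
    lns := ⟨sLn v, sLn (-v), sLn_neg v, sLn_neg' v⟩
    mem_iff := fun p l => inc_s f v p l }

theorem sPt_W (v : ℚ × ℚ) (p : Pt) (h : inc f p .W) : sPt v p = p := by
  rcases p with ⟨O, g⟩ | s | _ | z
  · exact absurd h id
  all_goals rfl

theorem center (v : ℚ × ℚ) : ∃ c ∈ QP, inc f c .W ∧ ∀ l, inc f c l → sLn v l = l := by
  by_cases hv : v.1 = 0
  · refine ⟨.infV, Or.inr (Or.inr rfl), trivial, ?_⟩
    rintro (⟨a, b⟩ | ⟨s, c, k⟩ | ⟨z, h⟩ | _) hl
    · show Ln.vert a (b + v.1) = Ln.vert a b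
      rw [hv, add_zero]
    · exact absurd hl id
    · exact absurd hl id
    · rfl
  · refine ⟨.inf (v.2 / v.1), Or.inr (Or.inl ⟨_, rfl⟩), trivial, ?_⟩
    rintro (⟨a, b⟩ | ⟨s, c, k⟩ | ⟨z, h⟩ | _) hl
    · exact absurd hl id
    · have : v.2 / v.1 = s := hl
      subst this
      show Ln.slope _ c (k + v.2 - v.2 / v.1 * v.1) = _
      rw [div_mul_cancel₀ _ hv, add_sub_cancel_right]
    · exact absurd hl id
    · rfl

theorem transl_elation (v : ℚ × ℚ) :
    letI := mem f; (transl f v).IsElation (Ln.W : Ln) := by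
  obtain ⟨c, -, h1, h2⟩ := center f v
  exact ⟨fun p hp => sPt_W f v p hp, c, h1, h2⟩

theorem sPt_QP (v : ℚ × ℚ) {p : Pt} (hp : p ∈ QP) : sPt v p ∈ QP := by
  rcases hp with ⟨g, rfl⟩ | ⟨s, rfl⟩ | rfl
  · exact Or.inl ⟨_, rfl⟩
  · exact Or.inr (Or.inl ⟨_, rfl⟩)
  · exact Or.inr (Or.inr rfl)

theorem sLn_QL (v : ℚ × ℚ) {l : Ln} (hl : l ∈ QL) : sLn v l ∈ QL := by
  rcases hl with ⟨b, rfl⟩ | ⟨s, k, rfl⟩ | rfl
  · exact Or.inl ⟨_, rfl⟩
  · exact Or.inr (Or.inl ⟨_, _, rfl⟩)
  · exact Or.inr (Or.inr rfl)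

/-- The translations of the affine Baer subplane. -/
def translQ (hf : Good f) (v : ℚ × ℚ) :
    letI := mem f; Collineation (subpl f hf).Point (subpl f hf).Line :=
  letI := mem f
  { pts := ⟨fun p => ⟨sPt v p.1, sPt_QP v p.2⟩, fun p => ⟨sPt (-v) p.1, sPt_QP (-v) p.2⟩,
      fun p => Subtype.ext (sPt_neg v p.1), fun p => Subtype.ext (sPt_neg' v p.1)⟩
    lns := ⟨fun p => ⟨sLn v p.1, sLn_QL v p.2⟩, fun p => ⟨sLn (-v) p.1, sLn_QL (-v) p.2⟩,
      fun p => Subtype.ext (sLn_neg v p.1), fun p => Subtype.ext (sLn_neg' v p.1)⟩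
    mem_iff := fun p l => inc_s f v p.1 l.1 }

theorem W_mem : Ln.W ∈ QL := Or.inr (Or.inr rfl)

theorem translQ_elation (hf : Good f) (v : ℚ × ℚ) :
    letI := mem f; (translQ f hf v).IsElation (⟨Ln.W, W_mem⟩ : (subpl f hf).Line) := by
  obtain ⟨c, h0, h1, h2⟩ := center f v
  exact ⟨fun p hp => Subtype.ext (sPt_W f v p.1 hp), ⟨c, h0⟩, h1,
    fun l hl => Subtype.ext (h2 l.1 hl)⟩

/-- All translations of the affine Baer subplane are of this form. -/
theorem classify (hf : Good f) :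
    letI := mem f
    ∀ σ : Collineation (subpl f hf).Point (subpl f hf).Line,
      σ.IsElation (⟨Ln.W, W_mem⟩ : (subpl f hf).Line) →
      ∃ v, ∀ p : (subpl f hf).Point, sPt v p.1 = (σ.pts p).1 := by
  letI := mem f
  intro σ hσ
  obtain ⟨hW, c, hc1, hc2⟩ := hσ
  have hI : ∀ s, (σ.pts ⟨.inf s, Or.inr (Or.inl ⟨_, rfl⟩)⟩).1 = .inf s := fun s =>
    congrArg Subtype.val (hW ⟨.inf s, Or.inr (Or.inl ⟨_, rfl⟩)⟩ trivial)
  have hV : (σ.pts ⟨.infV, Or.inr (Or.inr rfl)⟩).1 = .infV :=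
    congrArg Subtype.val (hW ⟨.infV, Or.inr (Or.inr rfl)⟩ trivial)
  have hA : ∀ g, ∃ g', (σ.pts ⟨.aff 0 g, Or.inl ⟨_, rfl⟩⟩).1 = .aff 0 g' := by
    intro g
    rcases (σ.pts ⟨.aff 0 g, Or.inl ⟨_, rfl⟩⟩).2 with ⟨g', h⟩ | ⟨s, h⟩ | h
    · exact ⟨g', h⟩
    · exfalso
      have h2 := σ.pts.injective (Subtype.ext (h.trans (hI s).symm))
      have h3 := congrArg Subtype.val h2
      simp at h3
    · exfalso
      have h2 := σ.pts.injective (Subtype.ext (h.trans hV.symm))
      have h3 := congrArg Subtype.val h2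
      simp at h3
  choose t ht using hA
  -- parallel classes
  have hS : ∀ s (g g' : ℚ × ℚ), g.2 - s * g.1 = g'.2 - s * g'.1 →
      (t g).2 - s * (t g).1 = (t g').2 - s * (t g').1 := by
    intro s g g' h
    let l : (subpl f hf).Line := ⟨.slope s 0 (g.2 - s * g.1), Or.inr (Or.inl ⟨_, _, rfl⟩)⟩
    have m1 := (σ.mem_iff ⟨.aff 0 g, Or.inl ⟨_, rfl⟩⟩ l).2
      (show inc f (.aff 0 g) (.slope s 0 (g.2 - s * g.1)) from
        ⟨by simp, by simp⟩)
    have m2 := (σ.mem_iff ⟨.aff 0 g', Or.inl ⟨_, rfl⟩⟩ l).2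
      (show inc f (.aff 0 g') (.slope s 0 (g.2 - s * g.1)) from
        ⟨by simp, by rw [h]; simp⟩)
    have m3 := (σ.mem_iff ⟨.inf s, Or.inr (Or.inl ⟨_, rfl⟩)⟩ l).2
      (show inc f (.inf s) (.slope s 0 (g.2 - s * g.1)) from rfl)
    change inc f _ _ at m1
    change inc f _ _ at m2
    change inc f _ _ at m3
    rw [ht] at m1 m2
    rw [hI] at m3
    generalize (σ.lns l).1 = w at m1 m2 m3
    rcases w with ⟨a, b⟩ | ⟨s', c', k'⟩ | ⟨z, h'⟩ | _
    · exact absurd m3 id
    · have e1 : s = s' := m3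
      subst e1
      obtain ⟨x1, x2⟩ := m1
      obtain ⟨x3, x4⟩ := m2
      have y1 : (0 : ℚ) = s * 0 + c' := x1
      have y2 : c' = 0 := by linarith
      subst y2
      linear_combination x2 - x4
    · exact absurd m3 id
    · exact absurd m1 id
  have hP : ∀ g g' : ℚ × ℚ, g.1 = g'.1 → (t g).1 = (t g').1 := by
    intro g g' h
    let l : (subpl f hf).Line := ⟨.vert 0 g.1, Or.inl ⟨_, rfl⟩⟩
    have m1 := (σ.mem_iff ⟨.aff 0 g, Or.inl ⟨_, rfl⟩⟩ l).2
      (show inc f (.aff 0 g) (.vert 0 g.1) from ⟨rfl, rfl⟩)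
    have m2 := (σ.mem_iff ⟨.aff 0 g', Or.inl ⟨_, rfl⟩⟩ l).2
      (show inc f (.aff 0 g') (.vert 0 g.1) from ⟨rfl, h.symm⟩)
    have m3 := (σ.mem_iff ⟨.infV, Or.inr (Or.inr rfl)⟩ l).2
      (show inc f .infV (.vert 0 g.1) from trivial)
    change inc f _ _ at m1
    change inc f _ _ at m2
    change inc f _ _ at m3
    rw [ht] at m1 m2
    rw [hV] at m3
    generalize (σ.lns l).1 = w at m1 m2 m3
    rcases w with ⟨a, b⟩ | ⟨s', c', k'⟩ | ⟨z, h'⟩ | _
    · exact m1.2.trans m2.2.symm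
    · exact absurd m3 id
    · exact absurd m3 id
    · exact absurd m1 id
  have main : ∃ v, ∀ g, t g = g + v := by
    refine ⟨t 0, ?_⟩
    rcases c with ⟨c, hcQ⟩
    rcases hcQ with ⟨g0, rfl⟩ | ⟨s0, rfl⟩ | rfl
    · exact absurd hc1 id
    · have hC : ∀ g : ℚ × ℚ, (t g).2 - s0 * (t g).1 = g.2 - s0 * g.1 := by
        intro g
        let l : (subpl f hf).Line := ⟨.slope s0 0 (g.2 - s0 * g.1), Or.inr (Or.inl ⟨_, _, rfl⟩)⟩
        have h1 := hc2 l (show inc f (.inf s0) (.slope s0 0 (g.2 - s0 * g.1)) from rfl)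
        have m1 := (σ.mem_iff ⟨.aff 0 g, Or.inl ⟨_, rfl⟩⟩ l).2
          (show inc f (.aff 0 g) (.slope s0 0 (g.2 - s0 * g.1)) from ⟨by simp, by simp⟩)
        rw [h1] at m1
        change inc f _ _ at m1
        rw [ht] at m1
        obtain ⟨-, m2⟩ := m1
        linear_combination m2
      have key : ∀ g : ℚ × ℚ, (t g).1 - g.1 = (t 0).1 := by
        intro g
        have h1 := hP g (g.1, (s0 + 1) * g.1) rfl
        have h2 := hS (s0 + 1) (g.1, (s0 + 1) * g.1) 0 (by simp)
        have h3 := hC (g.1, (s0 + 1) * g.1)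
        have h4 := hC 0
        simp only [Prod.fst_zero, Prod.snd_zero, mul_zero, sub_zero] at h3 h4
        linear_combination h1 + h3 - h4 - h2
      intro g
      have h1 := key g
      have h2 := hC g
      have h3 := hC 0
      simp only [Prod.fst_zero, Prod.snd_zero, mul_zero, sub_zero] at h3
      apply Prod.ext
      · show (t g).1 = g.1 + (t 0).1
        linarith
      · show (t g).2 = g.2 + (t 0).2
        linear_combination h2 - h3 + s0 * h1
    · have hC : ∀ g : ℚ × ℚ, (t g).1 = g.1 := by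
        intro g
        let l : (subpl f hf).Line := ⟨.vert 0 g.1, Or.inl ⟨_, rfl⟩⟩
        have h1 := hc2 l (show inc f .infV (.vert 0 g.1) from trivial)
        have m1 := (σ.mem_iff ⟨.aff 0 g, Or.inl ⟨_, rfl⟩⟩ l).2
          (show inc f (.aff 0 g) (.vert 0 g.1) from ⟨rfl, rfl⟩)
        rw [h1] at m1
        change inc f _ _ at m1
        rw [ht] at m1
        exact m1.2
      have hne : ∀ g : ℚ × ℚ, g.1 ≠ 0 → (t g).2 = g.2 + (t 0).2 := by
        intro g hg
        have h1 := hS (g.2 / g.1) g 0 (by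
          rw [div_mul_cancel₀ _ hg]; simp)
        have h2 := hC g
        have h3 := hC 0
        rw [h2, h3, div_mul_cancel₀ _ hg] at h1
        simp only [Prod.fst_zero, mul_zero, sub_zero] at h1
        linarith
      intro g
      have hg : (t g).2 = g.2 + (t 0).2 := by
        by_cases h0 : g.1 = 0
        · have h1 := hS (-g.2) g (1, 0) (by simp [h0])
          have h2 := hne (1, 0) (by norm_num)
          have h3 := hC g
          have h4 := hC (1, 0)
          rw [h3, h4, h2, h0] at h1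
          simp only [mul_zero, sub_zero, mul_one, zero_add] at h1
          linarith
        · exact hne g h0
      apply Prod.ext
      · show (t g).1 = g.1 + (t 0).1
        rw [hC g, hC 0]; simp
      · exact hg
  obtain ⟨v, hv⟩ := main
  refine ⟨v, ?_⟩
  rintro ⟨p, hp⟩
  rcases hp with ⟨g, rfl⟩ | ⟨s, rfl⟩ | rfl
  · rw [ht, hv]; rfl
  · rw [hI]; rfl
  · rw [hV]; rfl

theorem isBaer (hf : Good f) : letI := mem f; (subpl f hf).IsBaer := by
  letI := mem f
  constructor
  · rintro (⟨O, g⟩ | s | _ | z)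
    · by_cases hO : O.1 = 0
      · exact ⟨.vert 0 g.1, Or.inl ⟨_, rfl⟩, hO, rfl⟩
      · refine ⟨.slope (O.2 / O.1) 0 (g.2 - O.2 / O.1 * g.1), Or.inr (Or.inl ⟨_, _, rfl⟩), ?_, ?_⟩
        · rw [div_mul_cancel₀ _ hO, add_zero]
        · ring
    all_goals exact ⟨.W, W_mem, trivial⟩
  · rintro (⟨a, b⟩ | ⟨s, c, k⟩ | ⟨z, h⟩ | _)
    · exact ⟨.infV, Or.inr (Or.inr rfl), trivial⟩
    · exact ⟨.inf s, Or.inr (Or.inl ⟨_, rfl⟩), rfl⟩
    · exact ⟨.aff 0 (f z 0 + h), Or.inl ⟨_, rfl⟩, rfl⟩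
    · exact ⟨.infV, Or.inr (Or.inr rfl), trivial⟩

theorem isSemi (hf : Good f) : letI := mem f; IsSemiTranslation (Ln.W : Ln) (subpl f hf) := by
  letI := mem f
  refine ⟨W_mem, isBaer f hf, ?_, ?_⟩
  · rintro ⟨p, hp⟩ ⟨q, hq⟩ h1 h2
    rcases hp with ⟨g, rfl⟩ | ⟨s, rfl⟩ | rfl
    · rcases hq with ⟨g', rfl⟩ | ⟨s, rfl⟩ | rfl
      · refine ⟨translQ f hf (g' - g), translQ_elation f hf _, Subtype.ext ?_⟩
        show Pt.aff 0 (g + (g' - g)) = Pt.aff 0 g'
        rw [add_sub_cancel]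
      · exact absurd trivial h2
      · exact absurd trivial h2
    · exact absurd trivial h1
    · exact absurd trivial h1
  · intro σ hσ
    obtain ⟨v, hv⟩ := classify f hf σ hσ
    exact ⟨transl f v, transl_elation f v, hv⟩

/-- The coordinates. -/
def coords : letI := mem f
    HallCoords (Ln.W : Ln) (Pt.aff 0 0) (Pt.aff 0 (1, 1)) (Pt.inf 0) Pt.infV (ℚ × ℚ) :=
  letI := mem f
  { zero := (0, 0)
    one := (0, 1)
    pt := fun x y => .aff (x.1, y.1) (x.2, y.2)
    affine := fun x y => id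
    bij := by
      rintro (⟨O, g⟩ | s | _ | z) hp
      · refine ⟨((O.1, g.1), (O.2, g.2)), rfl, ?_⟩
        rintro ⟨x, y⟩ h
        simp only [Pt.aff.injEq] at h
        obtain ⟨rfl, rfl⟩ := h
        rfl
      · exact absurd trivial hp
      · exact absurd trivial hp
      · exact absurd trivial hp
    zero_zero := rfl
    one_one := rfl
    diag := fun x => ⟨.slope 1 0 0, ⟨by simp, by simp⟩, ⟨by simp, by simp⟩, ⟨by simp, by simp⟩⟩
    vert := fun x y y' => ⟨.vert x.1 x.2, trivial, ⟨rfl, rfl⟩, ⟨rfl, rfl⟩⟩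
    horiz := fun x x' y => ⟨.slope 0 y.1 y.2, rfl, ⟨by simp, by simp⟩, ⟨by simp, by simp⟩⟩ }

theorem tern_coords (s : ℚ) (x b : ℚ × ℚ) : letI := mem f
    (coords f).Tern x (0, s) b
      (s * x.1 + b.1, s * x.2 + b.2 + (s ^ 2 - s) * b.1 * x.1) := by
  letI := mem f
  refine ⟨.slope s 0 0, .slope s b.1 b.2, .inf s, ⟨?_, ?_⟩, ⟨?_, ?_⟩, rfl, trivial, rfl,
    ⟨?_, ?_⟩, ⟨?_, ?_⟩⟩
  · show (0 : ℚ) = s * 0 + 0; ring
  · show (0 : ℚ) = s * 0 + 0 + (s ^ 2 - s) * 0 * 0; ring
  · show (0 : ℚ) = s * 0 + 0; ring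
  · show s = s * 1 + 0 + (s ^ 2 - s) * 0 * 0; ring
  · show b.1 = s * 0 + b.1; ring
  · show b.2 = s * 0 + b.2 + (s ^ 2 - s) * b.1 * 0; ring
  · rfl
  · rfl

end example1

/-- **Main result.** There is a semi-translation plane, given by a projective plane with a line `W`
and a Baer subplane `Q`, and a quadrangle `o, e, u, v` of `Q` with `u, v` on `W`, whose ternary
field `T` (with ternary operation `tern x a b = x · a ∘ b`) is not linear over the coordinates
`s` of the points of `Q`: `x · s ∘ y ≠ x s + y` for some `x`, `y` and some such `s`. -/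
theorem result : ∃ (P L : Type) (_ : Membership P L) (_ : ProjectivePlane P L) (W : L)
    (Q : Subplane P L), IsSemiTranslation W Q ∧
    ∃ o ∈ Q.pts, ∃ e ∈ Q.pts, ∃ u ∈ Q.pts, ∃ v ∈ Q.pts, IsQuadrangle L o e u v ∧ u ∈ W ∧ v ∈ W ∧
    ∃ (T : Type) (C : HallCoords W o e u v T) (tern : T → T → T → T),
      (∀ x a b y, C.Tern x a b y ↔ y = tern x a b) ∧
      ∃ x y s : T, C.pt s s ∈ Q.pts ∧ tern x s y ≠ tern (tern x s C.zero) C.one y := by
  obtain ⟨f, hf⟩ := exists_good
  letI := mem f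
  letI := plane f hf
  refine ⟨Pt, Ln, mem f, plane f hf, Ln.W, subpl f hf, isSemi f hf, Pt.aff 0 0, Or.inl ⟨_, rfl⟩,
    Pt.aff 0 (1, 1), Or.inl ⟨_, rfl⟩, Pt.inf 0, Or.inr (Or.inl ⟨_, rfl⟩), Pt.infV,
    Or.inr (Or.inr rfl), quad f, trivial, trivial, ℚ × ℚ, coords f, ?_⟩
  obtain ⟨tern, htern⟩ := exists_tern (quad f) (show inc f (.inf 0) .W from trivial)
    (show inc f .infV .W from trivial) (coords f)
  refine ⟨tern, htern, (1, 0), (1, 0), (0, 2), Or.inl ⟨(2, 2), rfl⟩, ?_⟩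
  have h1 := (htern _ _ _ _).1 (tern_coords f 2 (1, 0) (1, 0))
  have h2 := (htern _ _ _ _).1 (tern_coords f 2 (1, 0) (0, 0))
  have h3 := (htern _ _ _ _).1 (tern_coords f 1 (2 * 1 + 0, 2 * 0 + 0 + (2 ^ 2 - 2) * 0 * 1) (1, 0))
  change tern (1, 0) (0, 2) (1, 0) ≠ tern (tern (1, 0) (0, 2) (0, 0)) (0, 1) (1, 0)
  rw [← h1, ← h2, ← h3]
  intro h
  have := congrArg Prod.snd h
  norm_num at this

end Pool.Agent.Results.MP_da03c4_co.NotLinear
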